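import Mathlib
import Pool.Agent.Work.MP_9ac7bc_an.Defs
import Pool.Agent.Work.MP_9ac7bc_an.Final

/-!
# The central limit theorem can fail for equilibrium states of complex Henon maps

The Henon map is `f(x, y) = (y, (lam + 1/2) y + y ^ 2 - (lam / 2) x)` with
`lam = exp(2 π i √2)`; it has a semi-Siegel fixed point at the origin. The weight is
`-min (K, c * dist(·, Λ))` where `Λ` is an invariant circle in the Siegel disc on which `f` is
conjugate to an irrational rotation; the unique equilibrium state is the Haar measure of `Λ`.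
The observable is a lacunary trigonometric series on `Λ`, extended to a Hoelder function.
-/

set_option autoImplicit false

open Pool.Agent.Work.MP_9ac7bc_an MeasureTheory

namespace Pool.Agent.Results.MP_9ac7bc_an.CLTFails

/-- There are a complex Henon map `f`, a Hoelder continuous weight `φ` on `ℂ²` having a unique
equilibrium state `μ`, and a Hoelder continuous observable `g` for which the central limit theorem
fails for every `σ ≥ 0`. -/
theorem result :
    ∃ f : ℂ × ℂ → ℂ × ℂ, IsHenon f ∧
    ∃ φ : ℂ × ℂ → ℝ, IsHolder φ ∧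
    ∃ μ : Measure (ℂ × ℂ), IsUniqueEquilibrium f φ μ ∧
    ∃ g : ℂ × ℂ → ℝ, IsHolder g ∧
    ∀ σ : ℝ, 0 ≤ σ → ¬ SatisfiesCLT f μ g σ :=
  ⟨F, isHenon_F, wgt, isHolder_wgt, mu0, isUniqueEquilibrium_mu0, obs, isHolder_obs, not_CLT⟩

end Pool.Agent.Results.MP_9ac7bc_an.CLTFails
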